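import Pool.Agent.helper37.L5.SpecE

/-!
# Row l5:MN5E of MP_baa4d7_al
-/

set_option autoImplicit false

namespace Pool.Agent.L5

open Pool.Agent.helper58.DC Pool.Agent.DI Pool.Agent.GR Pool.Agent.OB Pool.Agent.DR Pool.Agent.FI Pool.Agent.FI3 Pool.Agent.FI4 Pool.Agent.FI4I Pool.Agent.FI4E Pool.Agent.LE

/-- `O_p(G)` exists. -/
theorem MN5E_op (p : ℕ) (hp : p.Prime) (G : Type) [Group G] [Finite G] : ∃ R : Subgroup G, IsOp p (⊤ : Subgroup G) R := by
  classical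
  haveI : Fact p.Prime := ⟨hp⟩
  obtain ⟨R, hR, hmax⟩ := Set.exists_max_image {Q : Subgroup G | Q ≤ ⊤ ∧ IsPGroup p Q ∧ (⊤ : Subgroup G) ≤ Subgroup.normalizer (Q : Set G)}
    (fun Q => Nat.card Q) (Set.toFinite _) ⟨⊥, le_top, IsPGroup.of_bot, by
      rw [top_le_iff, Subgroup.normalizer_eq_top_iff]
      infer_instance⟩
  refine ⟨R, hR, fun Q hQ => ?_⟩
  obtain ⟨-, hQp, hQn⟩ := hQ
  obtain ⟨-, hRp, hRn⟩ := hR
  rw [top_le_iff, Subgroup.normalizer_eq_top_iff] at hQn hRn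
  have hsup : Nat.card (Q ⊔ R : Subgroup G) ≤ Nat.card R := by
    refine hmax (Q ⊔ R) ⟨le_top, IsPGroup.to_sup_of_normal_right hQp hRp, ?_⟩
    rw [top_le_iff, Subgroup.normalizer_eq_top_iff]
    infer_instance
  have heq : R = Q ⊔ R := Subgroup.eq_of_le_of_card_ge le_sup_right hsup
  rw [heq]
  exact le_sup_left

theorem MN5E (hTG : TG5E_stmt) (hDV : DV5E_stmt) (hOPD : OPD_stmt) (hOB : OB5_stmt) (hFR : FR5E_stmt) (hECN : ECN_stmt) (hLEL : LEL_stmt) (hFXA : FXA_stmt) (hTEI : TEI5_stmt) (hPRO : PRO5_stmt) (hEJ : EJ5_stmt) (hOUP : OUP5_stmt) (hMLT : MLT5_stmt) (hFIN : FIN5_stmt) (hFBC : FBC_stmt) (hEXB : EXB_stmt) (hBAA : BAA_stmt) : MN5E_stmt := by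
  intro p M hS H hHer c v n hc hBD hn hpn hJ G₀ _ _ D₀ x₀ θ₀ χ₀ hR₀ hH₀ α₀ hF₀ hα₀
  have hOB' := hOB p M hS H hHer (fun z => ∃ l : ℕ, z = l ∧ 1 ≤ l ∧ l ≤ p ^ c) hBD
  suffices K : ∀ k : ℕ, ∀ (G : Type) [Group G] [Finite G], Nat.card G = k → ∀ (D : Subgroup G) (x : G) (θ χ : G → ℂ),
      Rt p M D x θ χ → H G D (TT M D θ) → ∀ α : MulAut G, FxR M D θ α → (∃ y : G, α ^ n = MulAut.conj y) →
      tE p M (⊤ : Subgroup G) θ α = tE p M (nz (Ec p (c + v) D)) θ α from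
    K _ G₀ rfl D₀ x₀ θ₀ χ₀ hR₀ hH₀ α₀ hF₀ hα₀
  intro k
  induction k using Nat.strong_induction_on with
  | _ k ih =>
    intro G _ _ hcard D x θ χ hR hH α hF hα
    obtain ⟨R, hRop⟩ := MN5E_op p hS.pr G
    have hRD := hOPD p M hS G D x θ χ hR R hRop
    have hnR : nz R = ⊤ := top_le_iff.1 hRop.1.2.2
    have baa := fun (β : MulAut G) => hBAA G M p β R R R θ θ θ
    have hαR : am α R = R := (baa α).1.2.2.2.2.2.2.2.2 hRop
    have htop : ∀ β : MulAut G, am β (⊤ : Subgroup G) = ⊤ := fun β => (baa β).1.2.2.2.2.2.1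
    obtain ⟨-, -, hE3, hE4, -, hE6, hE7⟩ := hECN p (c + v) hS.pr G D hR.dfa.pgrp hR.com
    obtain ⟨fx1, fx2, -, -, fx5, fx6, fx7⟩ := hFXA p M hS G D θ hR.th α hF
    obtain ⟨-, hαN⟩ := fx6 (c + v)
    have hT : TT M D θ ≤ nz D := fun g hg => hg.1
    by_cases hER : Ec p (c + v) D ≤ R
    · rw [hFR p M hS G D x θ χ hR R hRD hnR α hF hαR ⊤ le_top le_top (htop α),
        hFR p M hS G D x θ χ hR R hRD hnR α hF hαR (nz (Ec p (c + v) D)) (hE6 R hER) (hT.trans hE3) hαN]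
    · obtain ⟨z, hzD, hzR⟩ := hE4 R hER
      obtain ⟨k, g, hkg, hkl⟩ := hPRO G α n hn hα
      have hF' := fx1 k
      have hgT : g ∈ TT M D θ := by
        rw [hkg] at hF'
        exact (fx2 g).1 hF'
      obtain ⟨-, te2, -⟩ := hTEI p M hS G θ α
      rw [← te2 ⊤ (htop α) g (Subgroup.mem_top g), ← te2 (nz (Ec p (c + v) D)) hαN g (hE3 (hT hgT)), ← hkg]
      obtain ⟨-, -, te3⟩ := hTEI p M hS G θ (α ^ k)
      obtain ⟨gx1, -, -, -, gx5, gx6, -⟩ := hFXA p M hS G D θ hR.th (α ^ k) hF'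
      obtain ⟨N, hN⟩ : ∃ N : ℕ, N = orderOf (α ^ k) := ⟨_, rfl⟩
      have hNpos : 0 < N := by
        rw [hN]
        exact orderOf_pos _
      rw [← hN] at hkl
      have hej : ∀ m : ℕ, 0 < m → m ∣ N → ¬ p ∣ m ∧ ¬ p ^ (v + 1) ∣ Pool.Agent.MAPW.J2 m := fun m hm hmN =>
        hEJ p n m (v + 1) hS.pr hn hm hpn (fun l hl hlm => hkl l hl (hlm.trans hmN)) hJ
      -- the congruences
      have hcong : ∀ j : ℕ, ∃ m : ℤ, tE p M (⊤ : Subgroup G) θ ((α ^ k) ^ j) - tE p M (nz (Ec p (c + v) D)) θ ((α ^ k) ^ j) =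
          (p : ℂ) ^ c * m := by
        intro j
        have hFj := gx1 j
        obtain ⟨-, -, -, -, -, -, jx7⟩ := hFXA p M hS G D θ hR.th ((α ^ k) ^ j) hFj
        have hStb := jx7 χ hR.chi hR.ind
        have hord : orderOf ((α ^ k) ^ j) ∣ N := by
          rw [hN]
          exact orderOf_pow_dvd j
        obtain ⟨hj1, hj2⟩ := hej _ (orderOf_pos _) hord
        have hinn : ∃ y : G, ((α ^ k) ^ j) ^ n = MulAut.conj y := by
          obtain ⟨y, hy⟩ := hα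
          refine ⟨y ^ (k * j), ?_⟩
          have e0 : ((α ^ k) ^ j) ^ n = (α ^ n) ^ (k * j) := by
            rw [← pow_mul, ← pow_mul, ← pow_mul]
            congr 1
            ring
          rw [e0, hy, map_pow]
        have h1 := hTG p M hS H hHer G D x θ χ hR hH (c + v) n R hRop hRD hER ((α ^ k) ^ j) hFj hinn
          (fun G' _ _ hlt D' x' θ' χ' hR' hH' β hβ hβn =>
            ih (Nat.card G') (by rw [← hcard]; exact hlt) G' rfl D' x' θ' χ' hR' hH' β hβ hβn)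
        obtain ⟨m, hm⟩ := hDV p M hS G D x θ χ hR c v hc R hRop hRD z hzD hzR ((α ^ k) ^ j) hStb hj1 hj2
        refine ⟨m, ?_⟩
        rw [h1] at hm
        have hG0 : (Nat.card G : ℂ) ≠ 0 := by exact_mod_cast Nat.card_pos.ne'
        refine mul_left_cancel₀ hG0 ?_
        rw [hm]
        ring
      -- the multiplicities
      have hζ := Complex.isPrimitiveRoot_exp N hNpos.ne'
      have hpow : (α ^ k) ^ N = 1 := by
        rw [hN]
        exact pow_orderOf_eq_one _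
      have hBC : ∀ L : Subgroup G, BC M L (Bl M L θ) := fun L => (hFBC p M hS G L θ 1).1
      have hne1 : (Bl M (⊤ : Subgroup G) θ).Nonempty := by
        have h2 : (⊤ : Subgroup G) ⊓ cz D = cz D := top_inf_eq _
        obtain ⟨ψ, hψ1, hψ2⟩ := hEXB p M hS G ⊤ D hR.dfa.pgrp le_top θ (by rw [h2]; exact hR.th)
        exact ⟨ψ, hψ1, hψ2.symm⟩
      have hne2 : (Bl M (nz (Ec p (c + v) D)) θ).Nonempty := by
        have h2 : nz (Ec p (c + v) D) ⊓ cz D = cz D := inf_eq_right.2 hE7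
        have hDN : D ≤ nz (Ec p (c + v) D) := (Subgroup.le_normalizer).trans hE3
        obtain ⟨ψ, hψ1, hψ2⟩ := hEXB p M hS G (nz (Ec p (c + v) D)) D hR.dfa.pgrp hDN θ (by rw [h2]; exact hR.th)
        exact ⟨ψ, hψ1, hψ2.symm⟩
      obtain ⟨m1, m10, hm1⟩ := hMLT p M hS G ⊤ (Bl M ⊤ θ) (hBC ⊤) hne1 (α ^ k) (htop _) (gx5 ⊤ le_top (htop _)) N hNpos hpow _ hζ
      obtain ⟨m2, m20, hm2⟩ := hMLT p M hS G (nz (Ec p (c + v) D)) (Bl M (nz (Ec p (c + v) D)) θ) (hBC _) hne2 (α ^ k) (gx6 (c + v)).2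
        (gx5 _ hE7 (gx6 (c + v)).2) N hNpos hpow _ hζ
      have hs1 : ∑ i ∈ Finset.range N, m1 i ≤ p ^ c := by
        obtain ⟨l, hl, -, hlp⟩ := hBD G D x θ χ hR hH
        rw [(hLEL p M hS G D x θ χ hR).2, ← te3 ⊤] at hl
        have h2 := hm1 0
        rw [pow_zero] at h2
        have h3 : ((∑ i ∈ Finset.range N, m1 i : ℕ) : ℂ) = l := by
          rw [← hl]
          push_cast
          refine Eq.trans (Finset.sum_congr rfl fun i _ => ?_) h2.symm
          rw [mul_zero, pow_zero, mul_one]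
        have h4 : ∑ i ∈ Finset.range N, m1 i = l := by exact_mod_cast h3
        rw [h4]
        exact hlp
      have hs2 : ∑ i ∈ Finset.range N, m2 i ≤ p ^ c := by
        obtain ⟨l, hl, -, hlp⟩ := hOB' G D x θ χ hR hH (c + v)
        rw [← te3 (nz (Ec p (c + v) D))] at hl
        have h2 := hm2 0
        rw [pow_zero] at h2
        have h3 : ((∑ i ∈ Finset.range N, m2 i : ℕ) : ℂ) = l := by
          rw [← hl]
          push_cast
          refine Eq.trans (Finset.sum_congr rfl fun i _ => ?_) h2.symm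
          rw [mul_zero, pow_zero, mul_one]
        have h4 : ∑ i ∈ Finset.range N, m2 i = l := by exact_mod_cast h3
        rw [h4]
        exact hlp
      have hfin := hFIN p c N hS.pr hNpos (hej N hNpos dvd_rfl).1 _ hζ m1 m2 hs1 hs2 m10 m20 (fun j => by
        obtain ⟨m, hm⟩ := hcong j
        refine ⟨m, ?_⟩
        rw [← hm1 j, ← hm2 j]
        exact hm)
      have e1 := hm1 1
      have e2 := hm2 1
      rw [pow_one] at e1 e2
      show tS p ⊤ (Bl M ⊤ θ) (α ^ k) = tS p (nz (Ec p (c + v) D)) (Bl M (nz (Ec p (c + v) D)) θ) (α ^ k)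
      rw [e1, e2]
      exact Finset.sum_congr rfl fun i hi => by rw [hfin i (Finset.mem_range.1 hi)]

end Pool.Agent.L5
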